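import Pool.Agent.Lib.MP_acafa7_al.F.H69.ColQ

/-! Coset lemma of section 3.2 of PaperF.md. -/

namespace MSG.F.H69

open Classical

variable {V : Type} {G : SimpleGraph V} {B : Type} [Group B] [MulAction B V]

/-- the elements moving `x` by at most `r` -/
def mv (G : SimpleGraph V) (B : Type) [Group B] [MulAction B V] (x : V) (r : ℕ) : Set B :=
  {g | G.dist x (g • x) ≤ r}

theorem one_mem_mv (x : V) (r : ℕ) : (1 : B) ∈ mv G B x r := by
  show G.dist x ((1 : B) • x) ≤ r
  rw [one_smul, SimpleGraph.dist_self]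
  omega

theorem inv_mem_mv (hadj : ∀ (b : B) x y, G.Adj (b • x) (b • y) ↔ G.Adj x y) {x : V} {r : ℕ} {g : B}
    (hg : g ∈ mv G B x r) : g⁻¹ ∈ mv G B x r := by
  show G.dist x (g⁻¹ • x) ≤ r
  rw [← dist_smul' hadj g, smul_inv_smul, SimpleGraph.dist_comm]
  exact hg

/-- In a component all of whose points are near the orbit of `x₀` the group elements belong to one
coset of the subgroup generated by the elements moving `x₀` by at most `2r+1`. -/
theorem coset (hconn : G.Connected) (hadj : ∀ (b : B) x y, G.Adj (b • x) (b • y) ↔ G.Adj x y)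
    {x₀ : V} {r : ℕ} {R : V → V → Prop} (hR : ∀ u v, R u v → G.Adj u v) {x y : V}
    (hxy : Relation.ReflTransGen R x y)
    (hnear : ∀ z, Relation.ReflTransGen R x z → ∃ b : B, G.dist z (b • x₀) ≤ r) {b b' : B}
    (hb : G.dist x (b • x₀) ≤ r) (hb' : G.dist y (b' • x₀) ≤ r) :
    b⁻¹ * b' ∈ Subgroup.closure (mv G B x₀ (2 * r + 1)) := by
  induction hxy generalizing b' with
  | refl =>
    apply Subgroup.subset_closure
    show G.dist x₀ ((b⁻¹ * b') • x₀) ≤ 2 * r + 1
    rw [← dist_smul' hadj b, smul_smul, mul_inv_cancel_left]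
    have h1 : G.dist (b • x₀) (b' • x₀) ≤ G.dist (b • x₀) x + G.dist x (b' • x₀) :=
      hconn.dist_triangle
    rw [SimpleGraph.dist_comm (u := b • x₀) (v := x)] at h1
    omega
  | @tail u v huv hst ih =>
    obtain ⟨c, hc⟩ := hnear u huv
    have h1 := ih hc
    have h2 : c⁻¹ * b' ∈ Subgroup.closure (mv G B x₀ (2 * r + 1)) := by
      apply Subgroup.subset_closure
      show G.dist x₀ ((c⁻¹ * b') • x₀) ≤ 2 * r + 1
      rw [← dist_smul' hadj c, smul_smul, mul_inv_cancel_left]
      have h3 : G.dist (c • x₀) (b' • x₀) ≤ G.dist (c • x₀) u + G.dist u (b' • x₀) :=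
        hconn.dist_triangle
      have h4 : G.dist u (b' • x₀) ≤ G.dist u v + G.dist v (b' • x₀) := hconn.dist_triangle
      have h5 : G.dist u v = 1 := SimpleGraph.dist_eq_one_iff_adj.2 (hR u v hst)
      rw [SimpleGraph.dist_comm (u := c • x₀) (v := u)] at h3
      omega
    have h3 := Subgroup.mul_mem _ h1 h2
    rwa [mul_assoc, mul_inv_cancel_left] at h3

/-- elements of the subgroup generated by the elements moving `x` by at most `r` -/
theorem closure_move (hconn : G.Connected)
    (hadj : ∀ (b : B) x y, G.Adj (b • x) (b • y) ↔ G.Adj x y) [Finite B] {x : V} {r : ℕ} {g : B}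
    (hg : g ∈ Subgroup.closure (mv G B x r)) : G.dist x (g • x) ≤ Nat.card B * r := by
  have hF : Fintype B := Fintype.ofFinite B
  let Γ : SimpleGraph B := SimpleGraph.fromRel (fun a b => a⁻¹ * b ∈ mv G B x r)
  have hstep : ∀ a b : B, b ∈ mv G B x r → Γ.Reachable a (a * b) := by
    intro a b hb
    by_cases h1 : a = a * b
    · rw [← h1]
    · apply SimpleGraph.Adj.reachable
      rw [SimpleGraph.fromRel_adj]
      refine ⟨h1, Or.inl ?_⟩
      rw [inv_mul_cancel_left]
      exact hb
  have hreach : Γ.Reachable 1 g := by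
    induction hg using Subgroup.closure_induction_right with
    | one => exact SimpleGraph.Reachable.refl _
    | mul_right a _ b hb ih => exact ih.trans (hstep a b hb)
    | mul_inv_cancel a _ b hb ih => exact ih.trans (hstep a b⁻¹ (inv_mem_mv hadj hb))
  obtain ⟨p, hp⟩ := hreach.exists_isPath
  have hlen := hp.length_lt
  have key : ∀ (a b : B) (w : Γ.Walk a b), G.dist (a • x) (b • x) ≤ w.length * r := by
    intro a b w
    induction w with
    | nil => rw [SimpleGraph.dist_self]; omega
    | @cons u v w h p ih =>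
      have h1 : G.dist (u • x) (w • x) ≤ G.dist (u • x) (v • x) + G.dist (v • x) (w • x) :=
        hconn.dist_triangle
      have h2 : G.dist (u • x) (v • x) ≤ r := by
        rw [SimpleGraph.fromRel_adj] at h
        rcases h.2 with h3 | h3
        · have h4 : G.dist x ((u⁻¹ * v) • x) ≤ r := h3
          rwa [← dist_smul' hadj u, smul_smul, mul_inv_cancel_left] at h4
        · have h4 : G.dist x ((v⁻¹ * u) • x) ≤ r := h3
          rw [← dist_smul' hadj v, smul_smul, mul_inv_cancel_left] at h4
          rwa [SimpleGraph.dist_comm]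
      rw [SimpleGraph.Walk.length_cons]
      calc G.dist (u • x) (w • x) ≤ r + p.length * r := by omega
        _ = (p.length + 1) * r := by ring
  have h1 := key 1 g p
  rw [one_smul] at h1
  refine h1.trans (Nat.mul_le_mul_right _ ?_)
  rw [Nat.card_eq_fintype_card]
  exact hlen.le

/-- diameter of a component near one orbit -/
theorem comp_diam (hconn : G.Connected)
    (hadj : ∀ (b : B) x y, G.Adj (b • x) (b • y) ↔ G.Adj x y) [Finite B]
    {x₀ : V} {r : ℕ} {R : V → V → Prop} (hR : ∀ u v, R u v → G.Adj u v) {x y : V}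
    (hxy : Relation.ReflTransGen R x y)
    (hnear : ∀ z, Relation.ReflTransGen R x z → ∃ b : B, G.dist z (b • x₀) ≤ r) :
    G.dist x y ≤ 2 * r + Nat.card B * (2 * r + 1) := by
  obtain ⟨b, hb⟩ := hnear x Relation.ReflTransGen.refl
  obtain ⟨b', hb'⟩ := hnear y hxy
  have h1 := closure_move hconn hadj (coset hconn hadj hR hxy hnear hb hb')
  rw [← dist_smul' hadj b, smul_smul, mul_inv_cancel_left] at h1
  have h2 : G.dist x y ≤ G.dist x (b • x₀) + G.dist (b • x₀) y := hconn.dist_triangle
  have h3 : G.dist (b • x₀) y ≤ G.dist (b • x₀) (b' • x₀) + G.dist (b' • x₀) y :=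
    hconn.dist_triangle
  rw [SimpleGraph.dist_comm (u := b' • x₀) (v := y)] at h3
  omega

/-- an invariant component near one orbit: the group is generated by elements of small
displacement -/
theorem comp_top (hconn : G.Connected)
    (hadj : ∀ (b : B) x y, G.Adj (b • x) (b • y) ↔ G.Adj x y)
    {x₀ : V} {r : ℕ} {R : V → V → Prop} (hR : ∀ u v, R u v → G.Adj u v) {x : V}
    (hinv : ∀ g : B, Relation.ReflTransGen R x (g • x))
    (hnear : ∀ z, Relation.ReflTransGen R x z → ∃ b : B, G.dist z (b • x₀) ≤ r) :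
    Subgroup.closure (mv G B x₀ (2 * r + 1)) = ⊤ := by
  obtain ⟨b, hb⟩ := hnear x Relation.ReflTransGen.refl
  rw [Subgroup.eq_top_iff']
  intro g
  have h1 : G.dist ((b * g * b⁻¹) • x) ((b * g) • x₀) ≤ r := by
    have h2 : (b * g) • x₀ = (b * g * b⁻¹) • (b • x₀) := by
      rw [smul_smul, inv_mul_cancel_right]
    rw [h2, dist_smul' hadj]
    exact hb
  have h3 := coset hconn hadj hR (hinv (b * g * b⁻¹)) hnear hb h1
  rwa [inv_mul_cancel_left] at h3

end MSG.F.H69
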