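import Pool.Agent.Lib.MP_acafa7_al.F.IfaceC
import Pool.Agent.Lib.MP_acafa7_al.F.H69.Coset

/-! Module CMAP1 of the coarse part: coarse map with one scale and collapsed corner sets. -/

namespace MSG.F69

open Classical MSG.F.H69

theorem cmap1_full : CMap1Statement := by
  intro V G hconn B _ _ _ hA S r I _ U hne hinv hr hS hU hUb hUd
  obtain ⟨c₀, hc3, hcb, hcS⟩ := col_quot (B := B) hconn hA S (fun _ => r) (fun x _ => hr) (by
    intro x _
    refine le_trans (Nat.mul_le_mul_left _ ?_) hS
    refine Finset.card_image_le.trans ?_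
    apply Finset.card_le_card
    intro y hy
    simp only [Finset.mem_filter] at hy
    exact hy.1)
  let R : V → V → Prop := fun u v => G.Adj u v ∧ u ∈ S ∧ v ∈ S ∧ c₀ u = c₀ v
  let E₀ : V → V → Prop := Relation.ReflTransGen R
  have hRs : ∀ u v, R u v → R v u := fun u v h => ⟨h.1.symm, h.2.2.1, h.2.1, h.2.2.2.symm⟩
  have hEs : ∀ x y, E₀ x y → E₀ y x := by
    intro x y h
    induction h with
    | refl => exact Relation.ReflTransGen.refl
    | tail _ h ih => exact Relation.ReflTransGen.head (hRs _ _ h) ih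
  have hEt : ∀ x y z, E₀ x y → E₀ y z → E₀ x z := fun x y z h1 h2 => h1.trans h2
  have hEc : ∀ x y, E₀ x y → c₀ x = c₀ y := by
    intro x y h
    induction h with
    | refl => rfl
    | tail _ h ih => exact ih.trans h.2.2.2
  have hEb : ∀ (b : B) x y, E₀ x y → E₀ (b • x) (b • y) := by
    intro b x y h
    induction h with
    | refl => exact Relation.ReflTransGen.refl
    | tail _ h ih =>
      exact ih.tail ⟨(hA b _ _).2 h.1, hinv b _ h.2.1, hinv b _ h.2.2.1, by
        rw [hcb, hcb]; exact h.2.2.2⟩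
  have hEd : ∀ x ∈ S, ∀ y, E₀ x y → G.dist x y ≤ rB B r := by
    intro x hx y h
    obtain ⟨x₀, _, hx₀⟩ := hcS x hx
    have h1 := comp_diam (B := B) hconn hA (R := R) (fun u v h => h.1) h hx₀
    rwa [Nat.card_eq_fintype_card] at h1
  let N : I → V → Prop := fun i x => ∃ y ∈ U i, E₀ y x
  have hNd : ∀ i x, N i x → ∃ y ∈ U i, G.dist x y ≤ rB B r := by
    rintro i x ⟨y, hy, h⟩
    refine ⟨y, hy, ?_⟩
    rw [SimpleGraph.dist_comm]
    exact hEd y ((hU i).2 hy) x h
  have hNE : ∀ i x y, N i x → E₀ x y → N i y := by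
    rintro i x y ⟨z, hz, h⟩ h'
    exact ⟨z, hz, hEt _ _ _ h h'⟩
  have hNb : ∀ (b : B) i x, N i x → N (b • i) (b • x) := by
    rintro b i x ⟨z, hz, h⟩
    exact ⟨b • z, hUb b i z hz, hEb b _ _ h⟩
  have hNadj : ∀ i j x y, N i x → N j y → G.dist x y ≤ 1 → i = j := by
    intro i j x y hi hj hxy
    by_contra hij
    obtain ⟨x', hx', h1⟩ := hNd i x hi
    obtain ⟨y', hy', h2⟩ := hNd j y hj
    have h3 := hUd i j hij x' hx' y' hy'
    have h4 : G.dist x' y' ≤ G.dist x' x + G.dist x y' := hconn.dist_triangle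
    have h5 : G.dist x y' ≤ G.dist x y + G.dist y y' := hconn.dist_triangle
    rw [SimpleGraph.dist_comm (u := x') (v := x)] at h4
    omega
  have hNu : ∀ i j x, N i x → N j x → i = j := by
    intro i j x hi hj
    exact hNadj i j x x hi hj (by rw [SimpleGraph.dist_self]; omega)
  -- the equivalence relation
  let st : Setoid {x // x ∈ S} :=
    { r := fun x y => E₀ x.1 y.1 ∨ ∃ i, N i x.1 ∧ N i y.1
      iseqv :=
        { refl := fun x => Or.inl Relation.ReflTransGen.refl
          symm := by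
            rintro x y (h | ⟨i, h1, h2⟩)
            · exact Or.inl (hEs _ _ h)
            · exact Or.inr ⟨i, h2, h1⟩
          trans := by
            rintro x y z (h | ⟨i, h1, h2⟩) (h' | ⟨j, h1', h2'⟩)
            · exact Or.inl (hEt _ _ _ h h')
            · exact Or.inr ⟨j, hNE _ _ _ h1' (hEs _ _ h), h2'⟩
            · exact Or.inr ⟨i, h1, hNE _ _ _ h2 h'⟩
            · have := hNu i j _ h2 h1'
              subst this
              exact Or.inr ⟨i, h1, h2'⟩ } }
  let Y : Type := Quotient st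
  have hfin : Fintype Y := inferInstanceAs (Fintype (Quotient st))
  have hstb : ∀ (b : B) (x y : {x // x ∈ S}), st.r x y →
      st.r ⟨b • x.1, hinv b _ x.2⟩ ⟨b • y.1, hinv b _ y.2⟩ := by
    rintro b x y (h | ⟨i, h1, h2⟩)
    · exact Or.inl (hEb b _ _ h)
    · exact Or.inr ⟨b • i, hNb b _ _ h1, hNb b _ _ h2⟩
  let act : MulAction B Y :=
    { smul := fun b => Quotient.map (fun x => (⟨b • x.1, hinv b _ x.2⟩ : {x // x ∈ S}))
        (fun x y h => hstb b x y h)
      one_smul := by
        intro y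
        induction y using Quotient.ind with
        | _ x =>
          show Quotient.mk st _ = Quotient.mk st _
          congr 1
          exact Subtype.ext (one_smul B x.1)
      mul_smul := by
        intro b b' y
        induction y using Quotient.ind with
        | _ x =>
          show Quotient.mk st _ = Quotient.mk st _
          congr 1
          exact Subtype.ext (mul_smul b b' x.1) }
  have hsm : ∀ (b : B) (x : {x // x ∈ S}), (b • (Quotient.mk st x : Y)) =
      (Quotient.mk st ⟨b • x.1, hinv b _ x.2⟩ : Y) := fun b x => rfl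
  obtain ⟨x₀, hx₀⟩ := hne
  let π : V → Y := fun x => if hx : x ∈ S then Quotient.mk st ⟨x, hx⟩ else Quotient.mk st ⟨x₀, hx₀⟩
  have hπ : ∀ x (hx : x ∈ S), π x = Quotient.mk st ⟨x, hx⟩ := fun x hx => dif_pos hx
  have hπe : ∀ x ∈ S, ∀ y ∈ S, π x = π y ↔ (E₀ x y ∨ ∃ i, N i x ∧ N i y) := by
    intro x hx y hy
    rw [hπ x hx, hπ y hy]
    exact Quotient.eq (r := st)
  let c : Y → ℕ := Quotient.lift (fun x : {x // x ∈ S} => if ∃ i, N i x.1 then 3 else c₀ x.1) (by
    rintro x y (h | ⟨i, h1, h2⟩)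
    · have h1 : (∃ i, N i x.1) ↔ ∃ i, N i y.1 :=
        ⟨fun ⟨i, hi⟩ => ⟨i, hNE _ _ _ hi h⟩, fun ⟨i, hi⟩ => ⟨i, hNE _ _ _ hi (hEs _ _ h)⟩⟩
      rw [hEc _ _ h]
      simp only [h1]
    · rw [if_pos ⟨i, h1⟩, if_pos ⟨i, h2⟩])
  have hc : ∀ x ∈ S, c (π x) = if ∃ i, N i x then 3 else c₀ x := by
    intro x hx
    rw [hπ x hx]
    rfl
  have hex : ∀ i, ∃ x, x ∈ U i := fun i => (hU i).1
  choose p hp using hex
  have hpS : ∀ i, p i ∈ S := fun i => (hU i).2 (hp i)
  have hpN : ∀ i, N i (p i) := fun i => ⟨p i, hp i, Relation.ReflTransGen.refl⟩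
  have hUN : ∀ i x, x ∈ U i → N i x := fun i x hx => ⟨x, hx, Relation.ReflTransGen.refl⟩
  have hπb : ∀ (b : B), ∀ x ∈ S, π (b • x) = b • π x := by
    intro b x hx
    rw [hπ x hx, hπ _ (hinv b x hx), hsm]
  have hπN : ∀ i, ∀ x ∈ S, π x = π (p i) → N i x := by
    intro i x hx h
    rcases (hπe x hx _ (hpS i)).1 h with h | ⟨j, h1, h2⟩
    · exact hNE _ _ _ (hpN i) (hEs _ _ h)
    · have := hNu i j _ (hpN i) h2
      subst this
      exact h1
  have hsurj : ∀ v : Y, ∃ x ∈ S, π x = v := by
    intro v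
    induction v using Quotient.ind with
    | _ x => exact ⟨x.1, x.2, hπ x.1 x.2⟩
  refine ⟨Y, hfin, act, π, c, fun i => π (p i), ?_, ?_, ?_, ?_, hsurj, ?_, ?_⟩
  · refine ⟨hinv, hπb, ?_, ?_, ?_⟩
    · intro b y
      obtain ⟨x, hx, rfl⟩ := hsurj y
      rw [← hπb b x hx, hc _ hx, hc _ (hinv b x hx), hcb]
      have h1 : (∃ i, N i (b • x)) ↔ ∃ i, N i x := by
        constructor
        · rintro ⟨i, hi⟩
          have := hNb b⁻¹ _ _ hi
          rw [inv_smul_smul] at this
          exact ⟨_, this⟩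
        · rintro ⟨i, hi⟩
          exact ⟨_, hNb b _ _ hi⟩
      simp only [h1]
    · intro x hx y hy hxy
      have hx : x ∈ S := hx
      have hy : y ∈ S := hy
      by_cases h : c (π x) = c (π y)
      · left
        rw [hπe x hx y hy]
        rw [hc x hx, hc y hy] at h
        by_cases h1 : ∃ i, N i x
        · by_cases h2 : ∃ i, N i y
          · obtain ⟨i, hi⟩ := h1
            obtain ⟨j, hj⟩ := h2
            have h3 := hNadj i j x y hi hj (by rw [SimpleGraph.dist_eq_one_iff_adj.2 hxy])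
            subst h3
            exact Or.inr ⟨i, hi, hj⟩
          · exfalso
            rw [if_pos h1, if_neg h2] at h
            have := hc3 y
            omega
        · by_cases h2 : ∃ i, N i y
          · exfalso
            rw [if_neg h1, if_pos h2] at h
            have := hc3 x
            omega
          · rw [if_neg h1, if_neg h2] at h
            exact Or.inl (Relation.ReflTransGen.single ⟨hxy, hx, hy, h⟩)
      · exact Or.inr h
    · intro x hx y hy z hz t ht hxy hxz hxt hyz hyt hzt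
      have hx : x ∈ S := hx
      have hy : y ∈ S := hy
      have hz : z ∈ S := hz
      have ht : t ∈ S := ht
      have hcase : c₀ x = c₀ y ∨ c₀ x = c₀ z ∨ c₀ x = c₀ t ∨ c₀ y = c₀ z ∨ c₀ y = c₀ t ∨
          c₀ z = c₀ t := by
        have h1 := hc3 x
        have h2 := hc3 y
        have h3 := hc3 z
        have h4 := hc3 t
        omega
      have key : ∀ u ∈ S, ∀ v ∈ S, G.Adj u v → c₀ u = c₀ v → π u = π v := by
        intro u hu v hv huv h
        rw [hπe u hu v hv]
        exact Or.inl (Relation.ReflTransGen.single ⟨huv, hu, hv, h⟩)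
      rcases hcase with h | h | h | h | h | h
      · exact Or.inl (key _ hx _ hy hxy h)
      · exact Or.inr (Or.inl (key _ hx _ hz hxz h))
      · exact Or.inr (Or.inr (Or.inl (key _ hx _ ht hxt h)))
      · exact Or.inr (Or.inr (Or.inr (Or.inl (key _ hy _ hz hyz h))))
      · exact Or.inr (Or.inr (Or.inr (Or.inr (Or.inl (key _ hy _ ht hyt h)))))
      · exact Or.inr (Or.inr (Or.inr (Or.inr (Or.inr (key _ hz _ ht hzt h)))))
  · intro i x hx
    show π x = π (p i)
    rw [hπe x ((hU i).2 hx) _ (hpS i)]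
    exact Or.inr ⟨i, hUN i x hx, hpN i⟩
  · intro b i
    show b • π (p i) = π (p (b • i))
    rw [← hπb b _ (hpS i), hπe _ (hinv b _ (hpS i)) _ (hpS _)]
    exact Or.inr ⟨b • i, hNb b _ _ (hpN i), hpN _⟩
  · intro i j h
    have h1 : N j (p i) := hπN j (p i) (hpS i) h
    exact hNu i j _ (hpN i) h1
  · intro i x hx h
    exact hNd i x (hπN i x hx h)
  · intro x hx y hy h hn
    rcases (hπe x hx y hy).1 h with h | ⟨i, h1, h2⟩
    · exact hEd x hx y h
    · exfalso
      apply hn i
      show π x = π (p i)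
      rw [hπe x hx _ (hpS i)]
      exact Or.inr ⟨i, h1, hpN i⟩

theorem cmap1_st (_ : ColStatement) (_ : CosetStatement) : CMap1Statement := cmap1_full

end MSG.F69
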