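import Mathlib

/-! Section 3.1 of PaperF.md: a finite graph whose balls have few points at a suitable scale has a
3-colouring with small colour components. -/

namespace MSG.F.H69

open Classical

variable {S : Type}

/-- walk steps inside the set `W` -/
def StepIn (adj : S → S → Prop) (W : Finset S) (a b : S) : Prop := adj a b ∧ a ∈ W ∧ b ∈ W

/-- every component of `W` is contained in one of the balls `{D x₀ · ≤ ρ x₀}` -/
def Small (adj : S → S → Prop) (D : S → S → ℕ) (ρ : S → ℕ) (W : Finset S) : Prop :=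
  ∀ x ∈ W, ∃ x₀, ∀ y, Relation.ReflTransGen (StepIn adj W) x y → D x₀ y ≤ ρ x₀

section

variable {adj : S → S → Prop} {D : S → S → ℕ} {ρ : S → ℕ}

theorem reach_mem {W : Finset S} {x y : S} (hx : x ∈ W)
    (h : Relation.ReflTransGen (StepIn adj W) x y) : y ∈ W := by
  induction h with
  | refl => exact hx
  | tail _ hs _ => exact hs.2.2

theorem reach_lt {T : Finset S} (hs : ∀ a b, adj a b → adj b a)
    (hD : ∀ x y z, adj y z → D x y ≤ D x z + 1) (x : S) (r : ℕ)
    (hT : ∀ y ∈ T, D x y ≠ r) {y z : S} (hy : D x y < r)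
    (h : Relation.ReflTransGen (StepIn adj T) y z) : D x z < r := by
  induction h with
  | refl => exact hy
  | tail _ hst ih =>
    have h1 := hD x _ _ (hs _ _ hst.1)
    have h2 := hT _ hst.2.2
    omega

theorem reach_gt {T W : Finset S}
    (hD : ∀ x y z, adj y z → D x y ≤ D x z + 1) (x : S) (r : ℕ)
    (hT : ∀ y ∈ T, D x y ≠ r) (hTW : ∀ y ∈ T, r < D x y → y ∈ W) {y z : S}
    (hy : r < D x y)
    (h : Relation.ReflTransGen (StepIn adj T) y z) :
    r < D x z ∧ Relation.ReflTransGen (StepIn adj W) y z := by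
  induction h with
  | refl => exact ⟨hy, Relation.ReflTransGen.refl⟩
  | tail _ hst ih =>
    have h1 := hD x _ _ hst.1
    have h2 := hT _ hst.2.2
    have h3 : r < D x _ := ih.1
    refine ⟨by omega, ih.2.tail ⟨hst.1, hTW _ hst.2.1 ih.1, hTW _ hst.2.2 (by omega)⟩⟩

theorem exch (hs : ∀ a b, adj a b → adj b a) (hD : ∀ x y z, adj y z → D x y ≤ D x z + 1)
    (T W : Finset S) (hWT : W ⊆ T) (hsm : Small adj D ρ (T \ W))
    (hmin : ∀ W' ⊆ T, Small adj D ρ (T \ W') → W.card ≤ W'.card) (x : S) (r : ℕ)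
    (hr : r ≤ ρ x) :
    (W.filter (fun y => D x y ≤ r)).card ≤ (T.filter (fun y => D x y = r)).card := by
  set W' : Finset S := W.filter (fun y => ¬ D x y ≤ r) ∪ T.filter (fun y => D x y = r) with hW'
  have hsub : W' ⊆ T := by
    intro y hy
    rw [hW', Finset.mem_union, Finset.mem_filter, Finset.mem_filter] at hy
    rcases hy with hy | hy
    · exact hWT hy.1
    · exact hy.1
  have hne : ∀ y ∈ T \ W', D x y ≠ r := by
    intro y hy he
    rw [Finset.mem_sdiff] at hy
    exact hy.2 (by rw [hW', Finset.mem_union, Finset.mem_filter, Finset.mem_filter]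
                   exact Or.inr ⟨hy.1, he⟩)
  have hgt : ∀ y ∈ T \ W', r < D x y → y ∈ T \ W := by
    intro y hy hlt
    rw [Finset.mem_sdiff] at hy ⊢
    refine ⟨hy.1, fun hyW => hy.2 ?_⟩
    rw [hW', Finset.mem_union, Finset.mem_filter]
    exact Or.inl ⟨hyW, by omega⟩
  have hsm' : Small adj D ρ (T \ W') := by
    intro y hy
    rcases lt_or_gt_of_ne (hne y hy) with hlt | hlt
    · exact ⟨x, fun z hz => by
        have := reach_lt hs hD x r hne hlt hz
        omega⟩
    · obtain ⟨x₀, hx₀⟩ := hsm y (hgt y hy hlt)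
      exact ⟨x₀, fun z hz => hx₀ z (reach_gt hD x r hne hgt hlt hz).2⟩
  have h1 := hmin W' hsub hsm'
  have h2 : W'.card ≤ (W.filter (fun y => ¬ D x y ≤ r)).card +
      (T.filter (fun y => D x y = r)).card := Finset.card_union_le _ _
  have h3 := Finset.card_filter_add_card_filter_not (s := W) (fun y => D x y ≤ r)
  omega

theorem exists_min (T : Finset S) : ∃ W, W ⊆ T ∧ Small adj D ρ (T \ W) ∧
    ∀ W' ⊆ T, Small adj D ρ (T \ W') → W.card ≤ W'.card := by
  have hne : (T.powerset.filter (fun W => Small adj D ρ (T \ W))).Nonempty := by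
    refine ⟨T, ?_⟩
    rw [Finset.mem_filter, Finset.mem_powerset]
    refine ⟨Finset.Subset.refl _, ?_⟩
    intro x hx
    rw [Finset.sdiff_self] at hx
    exact absurd hx (Finset.notMem_empty _)
  obtain ⟨W, hW, hmin⟩ := Finset.exists_min_image _ Finset.card hne
  rw [Finset.mem_filter, Finset.mem_powerset] at hW
  refine ⟨W, hW.1, hW.2, fun W' h1 h2 => hmin W' ?_⟩
  rw [Finset.mem_filter, Finset.mem_powerset]
  exact ⟨h1, h2⟩

/-- the spheres of radii in `(a, b]` are disjoint subsets of the ball of radius `b` -/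
theorem sum_sph (T : Finset S) (x : S) (a b : ℕ) :
    ∑ r ∈ Finset.Ioc a b, (T.filter (fun y => D x y = r)).card ≤
      (T.filter (fun y => D x y ≤ b)).card := by
  rw [← Finset.card_biUnion]
  · apply Finset.card_le_card
    intro y hy
    rw [Finset.mem_biUnion] at hy
    obtain ⟨r, hr, hy⟩ := hy
    rw [Finset.mem_Ioc] at hr
    rw [Finset.mem_filter] at hy ⊢
    exact ⟨hy.1, by omega⟩
  · intro r _ r' _ hne
    rw [Function.onFun, Finset.disjoint_left]
    intro y hy hy'
    rw [Finset.mem_filter] at hy hy'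
    exact hne (hy.2.symm.trans hy'.2)

theorem ivt {V : Finset S} (hs : ∀ a b, adj a b → adj b a)
    (hD : ∀ x y z, adj y z → D x y ≤ D x z + 1) (x : S) (h0 : D x x = 0)
    (hx : x ∈ V) {y : S} (h : Relation.ReflTransGen (StepIn adj V) x y) :
    ∀ t ≤ D x y, ∃ z ∈ V, D x z = t := by
  induction h with
  | refl => intro t ht; exact ⟨x, hx, by omega⟩
  | @tail b d _ hst ih =>
    intro t ht
    have h1 := hD x _ _ (hs _ _ hst.1)
    by_cases h2 : t ≤ D x b
    · exact ih t h2
    · exact ⟨d, hst.2.2, by omega⟩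

end

/-- COL. -/
theorem col [Fintype S] (adj : S → S → Prop) (hs : ∀ a b, adj a b → adj b a) (D : S → S → ℕ)
    (h0 : ∀ x, D x x = 0) (hD : ∀ x y z, adj y z → D x y ≤ D x z + 1) (ρ : S → ℕ)
    (h10 : ∀ x, 10 ≤ ρ x) (hρ : ∀ x, 40 * Nat.card {y // D x y ≤ ρ x} ≤ ρ x ^ 3) :
    ∃ c : S → Fin 3, ∀ x, ∃ x₀, ∀ y,
      Relation.ReflTransGen (fun a b => adj a b ∧ c a = c b) x y → D x₀ y ≤ ρ x₀ := by
  obtain ⟨W, hWT, hsmW, hminW⟩ := exists_min (adj := adj) (D := D) (ρ := ρ) (Finset.univ : Finset S)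
  obtain ⟨V, hVW, hsmV, hminV⟩ := exists_min (adj := adj) (D := D) (ρ := ρ) W
  -- the number of points of `W`
  have hw : ∀ x, 20 * (W.filter (fun y => D x y ≤ ρ x / 2)).card ≤ ρ x ^ 2 := by
    intro x
    have h1 : (Finset.Ioc (ρ x / 2) (ρ x)).card * (W.filter (fun y => D x y ≤ ρ x / 2)).card ≤
        ∑ r ∈ Finset.Ioc (ρ x / 2) (ρ x),
          ((Finset.univ : Finset S).filter (fun y => D x y = r)).card := by
      rw [← smul_eq_mul, ← Finset.sum_const]
      apply Finset.sum_le_sum
      intro r hr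
      rw [Finset.mem_Ioc] at hr
      refine le_trans ?_ (exch hs hD _ W hWT hsmW hminW x r hr.2)
      apply Finset.card_le_card
      intro y hy
      rw [Finset.mem_filter] at hy ⊢
      exact ⟨hy.1, by omega⟩
    have h2 := sum_sph (D := D) (Finset.univ : Finset S) x (ρ x / 2) (ρ x)
    have h3 : ((Finset.univ : Finset S).filter (fun y => D x y ≤ ρ x)).card =
        Nat.card {y // D x y ≤ ρ x} := by
      rw [Nat.card_eq_fintype_card, Fintype.card_subtype]
    rw [Nat.card_Ioc] at h1
    have h4 := hρ x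
    have h5 := h10 x
    set w := (W.filter (fun y => D x y ≤ ρ x / 2)).card
    have h6 : 40 * ((ρ x - ρ x / 2) * w) ≤ ρ x ^ 3 := by omega
    have h7 : ρ x ≤ 2 * (ρ x - ρ x / 2) := by omega
    have h8 : ρ x * (20 * w) ≤ ρ x * ρ x ^ 2 := by
      calc ρ x * (20 * w) ≤ (2 * (ρ x - ρ x / 2)) * (20 * w) := Nat.mul_le_mul_right _ h7
        _ = 40 * ((ρ x - ρ x / 2) * w) := by ring
        _ ≤ ρ x ^ 3 := h6
        _ = ρ x * ρ x ^ 2 := by ring
    exact Nat.le_of_mul_le_mul_left h8 (by omega)
  have hv : ∀ x, 4 * (V.filter (fun y => D x y ≤ ρ x / 4)).card ≤ ρ x := by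
    intro x
    have h1 : (Finset.Ioc (ρ x / 4) (ρ x / 2)).card *
        (V.filter (fun y => D x y ≤ ρ x / 4)).card ≤
        ∑ r ∈ Finset.Ioc (ρ x / 4) (ρ x / 2), (W.filter (fun y => D x y = r)).card := by
      rw [← smul_eq_mul, ← Finset.sum_const]
      apply Finset.sum_le_sum
      intro r hr
      rw [Finset.mem_Ioc] at hr
      refine le_trans ?_ (exch hs hD W V hVW hsmV hminV x r (by omega))
      apply Finset.card_le_card
      intro y hy
      rw [Finset.mem_filter] at hy ⊢
      exact ⟨hy.1, by omega⟩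
    have h2 := sum_sph (D := D) W x (ρ x / 4) (ρ x / 2)
    rw [Nat.card_Ioc] at h1
    have h4 := hw x
    have h5 := h10 x
    set v := (V.filter (fun y => D x y ≤ ρ x / 4)).card
    set w := (W.filter (fun y => D x y ≤ ρ x / 2)).card
    have h6 : (ρ x / 2 - ρ x / 4) * v ≤ w := h1.trans h2
    have h7 : ρ x ≤ 5 * (ρ x / 2 - ρ x / 4) := by omega
    have h8 : ρ x * (4 * v) ≤ ρ x * ρ x := by
      calc ρ x * (4 * v) ≤ (5 * (ρ x / 2 - ρ x / 4)) * (4 * v) := Nat.mul_le_mul_right _ h7
        _ = 20 * ((ρ x / 2 - ρ x / 4) * v) := by ring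
        _ ≤ 20 * w := Nat.mul_le_mul_left _ h6
        _ ≤ ρ x ^ 2 := h4
        _ = ρ x * ρ x := by ring
    exact Nat.le_of_mul_le_mul_left h8 (by omega)
  have hsmVV : Small adj D ρ V := by
    intro x hx
    refine ⟨x, fun y hy => ?_⟩
    by_contra hlt
    have h1 := ivt hs hD x (h0 x) hx hy
    have h5 := h10 x
    have h6 := hv x
    have : Nonempty S := ⟨x⟩
    choose! g hg using h1
    have h7 : (Finset.range (ρ x / 4 + 1)).card ≤ (V.filter (fun y => D x y ≤ ρ x / 4)).card := by
      apply Finset.card_le_card_of_injOn g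
      · intro t ht
        have ht' : t < ρ x / 4 + 1 := by simpa using ht
        have h8 := hg t (by omega)
        have : g t ∈ V.filter (fun y => D x y ≤ ρ x / 4) := by
          rw [Finset.mem_filter]
          exact ⟨h8.1, by omega⟩
        exact_mod_cast this
      · intro t ht t' ht' he
        have h1' : t < ρ x / 4 + 1 := by simpa using ht
        have h2' : t' < ρ x / 4 + 1 := by simpa using ht'
        have h8 := hg t (by omega)
        have h9 := hg t' (by omega)
        rw [← h8.2, ← h9.2, he]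
    rw [Finset.card_range] at h7
    omega
  -- the colouring
  refine ⟨fun x => if x ∈ V then 2 else if x ∈ W then 1 else 0, fun x => ?_⟩
  have h01 : (0 : Fin 3) ≠ 1 := by decide
  have h02 : (0 : Fin 3) ≠ 2 := by decide
  have h12 : (1 : Fin 3) ≠ 2 := by decide
  by_cases hxV : x ∈ V
  · obtain ⟨x₀, hx₀⟩ := hsmVV x hxV
    refine ⟨x₀, fun y hy => hx₀ y ?_⟩
    have key : y ∈ V ∧ Relation.ReflTransGen (StepIn adj V) x y := by
      induction hy with
      | refl => exact ⟨hxV, Relation.ReflTransGen.refl⟩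
      | @tail b d _ hst ih =>
        obtain ⟨ih1, ih2⟩ := ih
        obtain ⟨hst1, hst2⟩ := hst
        dsimp only at hst2
        rw [if_pos ih1] at hst2
        have hb : d ∈ V := by
          by_contra hb
          rw [if_neg hb] at hst2
          split_ifs at hst2
          · exact h12 hst2.symm
          · exact h02 hst2.symm
        exact ⟨hb, ih2.tail ⟨hst1, ih1, hb⟩⟩
    exact key.2
  · by_cases hxW : x ∈ W
    · obtain ⟨x₀, hx₀⟩ := hsmV x (Finset.mem_sdiff.2 ⟨hxW, hxV⟩)
      refine ⟨x₀, fun y hy => hx₀ y ?_⟩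
      have key : y ∈ W \ V ∧ Relation.ReflTransGen (StepIn adj (W \ V)) x y := by
        induction hy with
        | refl => exact ⟨Finset.mem_sdiff.2 ⟨hxW, hxV⟩, Relation.ReflTransGen.refl⟩
        | @tail b d _ hst ih =>
          obtain ⟨ih1, ih2⟩ := ih
          obtain ⟨hst1, hst2⟩ := hst
          dsimp only at hst2
          rw [if_neg (Finset.mem_sdiff.1 ih1).2, if_pos (Finset.mem_sdiff.1 ih1).1] at hst2
          have hb : d ∈ W \ V := by
            rw [Finset.mem_sdiff]
            by_contra hb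
            split_ifs at hst2 with h1 h2
            · exact h12 hst2
            · exact hb ⟨h2, h1⟩
            · exact h01 hst2.symm
          exact ⟨hb, ih2.tail ⟨hst1, ih1, hb⟩⟩
      exact key.2
    · obtain ⟨x₀, hx₀⟩ := hsmW x (Finset.mem_sdiff.2 ⟨Finset.mem_univ _, hxW⟩)
      refine ⟨x₀, fun y hy => hx₀ y ?_⟩
      have key : y ∈ Finset.univ \ W ∧ Relation.ReflTransGen (StepIn adj (Finset.univ \ W)) x y := by
        induction hy with
        | refl => exact ⟨Finset.mem_sdiff.2 ⟨Finset.mem_univ _, hxW⟩, Relation.ReflTransGen.refl⟩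
        | @tail b d _ hst ih =>
          obtain ⟨ih1, ih2⟩ := ih
          obtain ⟨hst1, hst2⟩ := hst
          have h3 := (Finset.mem_sdiff.1 ih1).2
          dsimp only at hst2
          rw [if_neg (fun h => h3 (hVW h)), if_neg h3] at hst2
          have hb : d ∈ Finset.univ \ W := by
            rw [Finset.mem_sdiff]
            by_contra hb
            split_ifs at hst2 with h1 h2
            · exact h02 hst2
            · exact h01 hst2
            · exact hb ⟨Finset.mem_univ _, h2⟩
          exact ⟨hb, ih2.tail ⟨hst1, ih1, hb⟩⟩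
      exact key.2

end MSG.F.H69
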