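import Pool.Agent.Lib.MP_acafa7_al.F.IfaceC
import Pool.Agent.Lib.MP_acafa7_al.F.H69.Col

/-! Modules COL and COLE of the coarse part. -/

namespace MSG.F69

open Classical MSG.F.H69

theorem col_st : ColStatement := by
  intro S _ R D ρ hs h0 hD h10 hρ
  have hD' : ∀ x y z, R y z → D x y ≤ D x z + 1 := fun x y z h => hD x z y (hs y z h)
  have hρ' : ∀ x, 40 * Nat.card {y // D x y ≤ ρ x} ≤ ρ x ^ 3 := by
    intro x
    have h1 : Nat.card {y // D x y ≤ ρ x} = (Finset.univ.filter (fun y => D x y ≤ ρ x)).card := by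
      rw [Nat.card_eq_fintype_card, Fintype.card_subtype]
    rw [h1]
    exact hρ x
  obtain ⟨c, hc⟩ := col R hs D h0 hD' ρ h10 hρ'
  exact ⟨c, hc⟩

theorem cole_st : ColEStatement := by
  intro S _ R D ρ A hs h0 hD
  have hD' : ∀ x y z, R y z → D x y ≤ D x z + 1 := fun x y z h => hD x z y (hs y z h)
  obtain ⟨W, hWA, hsm, hmin⟩ := exists_min (adj := R) (D := D) (ρ := ρ) A
  refine ⟨W, hWA, ?_, fun x r hr => exch hs hD' A W hWA hsm hmin x r hr⟩
  intro y hy
  obtain ⟨x, hx⟩ := hsm y hy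
  exact ⟨x, fun z hz => hx z hz⟩

end MSG.F69
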