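import Pool.Agent.Lib.MP_acafa7_al.F.IfaceC
import Pool.Agent.Lib.MP_acafa7_al.F.H69.Coset

/-! Module COSET of the coarse part. -/

namespace MSG.F69

open Classical MSG.F.H69

theorem coset_st : CosetStatement := by
  intro V G hconn B _ _ _ hA K x r hch hnear
  have hR : ∀ u v, (u ∈ K ∧ v ∈ K ∧ G.Adj u v) → G.Adj u v := fun u v h => h.2.2
  have hmem : ∀ y ∈ K, ∀ z, Relation.ReflTransGen (fun u v => u ∈ K ∧ v ∈ K ∧ G.Adj u v) y z →
      ∃ b : B, G.dist z (b • x) ≤ r := by
    intro y hy z hz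
    have hzK : z ∈ K := by
      induction hz with
      | refl => exact hy
      | tail _ h _ => exact h.2.1
    exact hnear z hzK
  refine ⟨?_, ?_⟩
  · intro y hy y' hy'
    have h1 := comp_diam hconn hA hR (hch y hy y' hy') (hmem y hy)
    rwa [Nat.card_eq_fintype_card] at h1
  · intro hinv hne
    obtain ⟨y, hy⟩ := hne
    exact comp_top hconn hA hR (fun g => hch y hy (g • y) (hinv g y hy)) (hmem y hy)

end MSG.F69
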