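import Pool.Agent.Lib.MP_acafa7_al.F.H69.Col

/-! Section 3.2 of PaperF.md: the colouring of an invariant set of vertices, coset lemma. -/

namespace MSG.F.H69

open Classical

variable {V : Type} {G : SimpleGraph V} {B : Type} [Group B] [MulAction B V]

/-- distance of `x` to the orbit of `y` -/
noncomputable def dO (G : SimpleGraph V) (B : Type) [Group B] [MulAction B V] (x y : V) : ℕ :=
  sInf (Set.range (fun b : B => G.dist x (b • y)))

theorem dO_le (x y : V) (b : B) : dO G B x y ≤ G.dist x (b • y) := Nat.sInf_le ⟨b, rfl⟩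

theorem dO_mem (x y : V) : ∃ b : B, dO G B x y = G.dist x (b • y) := by
  have h : sInf (Set.range (fun b : B => G.dist x (b • y))) ∈
      Set.range (fun b : B => G.dist x (b • y)) := Nat.sInf_mem ⟨_, ⟨1, rfl⟩⟩
  obtain ⟨b, hb⟩ := h
  exact ⟨b, hb.symm⟩

theorem dO_le_iff (x y : V) (r : ℕ) : dO G B x y ≤ r ↔ ∃ b : B, G.dist x (b • y) ≤ r := by
  constructor
  · intro h
    obtain ⟨b, hb⟩ := dO_mem (G := G) (B := B) x y
    exact ⟨b, hb ▸ h⟩
  · rintro ⟨b, hb⟩
    exact (dO_le x y b).trans hb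

theorem dO_self (x : V) : dO G B x x = 0 := by
  have := dO_le (G := G) (B := B) x x 1
  rw [one_smul, SimpleGraph.dist_self] at this
  omega

/-- automorphisms preserve the distance -/
theorem dist_smul' (hadj : ∀ (b : B) x y, G.Adj (b • x) (b • y) ↔ G.Adj x y) (b : B) (x y : V) :
    G.dist (b • x) (b • y) = G.dist x y := by
  have key : ∀ (b : B) (x y : V), G.Reachable x y → G.Reachable (b • x) (b • y) ∧
      G.dist (b • x) (b • y) ≤ G.dist x y := by
    intro b x y h
    obtain ⟨p, hp⟩ := h.exists_walk_length_eq_dist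
    let f : G →g G := ⟨fun v => b • v, fun {u v} h => (hadj b u v).2 h⟩
    refine ⟨⟨p.map f⟩, ?_⟩
    calc G.dist (b • x) (b • y) ≤ (p.map f).length := SimpleGraph.dist_le _
      _ = p.length := SimpleGraph.Walk.length_map _ _
      _ = G.dist x y := hp
  by_cases h : G.Reachable x y
  · refine le_antisymm (key b x y h).2 ?_
    have h2 := (key b⁻¹ (b • x) (b • y) (key b x y h).1).2
    rwa [inv_smul_smul, inv_smul_smul] at h2
  · have h2 : ¬ G.Reachable (b • x) (b • y) := by
      intro h3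
      have h4 := (key b⁻¹ (b • x) (b • y) h3).1
      rw [inv_smul_smul, inv_smul_smul] at h4
      exact h h4
    rw [SimpleGraph.dist_eq_zero_of_not_reachable h, SimpleGraph.dist_eq_zero_of_not_reachable h2]

theorem dO_smul_left (hadj : ∀ (b : B) x y, G.Adj (b • x) (b • y) ↔ G.Adj x y) (b : B) (x y : V) :
    dO G B (b • x) y = dO G B x y := by
  have key : ∀ (b : B) (x : V), dO G B (b • x) y ≤ dO G B x y := by
    intro b x
    obtain ⟨c, hc⟩ := dO_mem (G := G) (B := B) x y
    rw [hc, ← dist_smul' hadj b, smul_smul]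
    exact dO_le _ _ _
  refine le_antisymm (key b x) ?_
  have := key b⁻¹ (b • x)
  rwa [inv_smul_smul] at this

theorem dO_smul_right (b : B) (x y : V) : dO G B x (b • y) = dO G B x y := by
  have key : ∀ (b : B) (y : V), dO G B x (b • y) ≤ dO G B x y := by
    intro b y
    obtain ⟨c, hc⟩ := dO_mem (G := G) (B := B) x y
    rw [hc]
    have := dO_le (G := G) (B := B) x (b • y) (c * b⁻¹)
    rwa [smul_smul, inv_mul_cancel_right] at this
  refine le_antisymm (key b y) ?_
  have := key b⁻¹ (b • y)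
  rwa [inv_smul_smul] at this

theorem dO_comm (hadj : ∀ (b : B) x y, G.Adj (b • x) (b • y) ↔ G.Adj x y) (x y : V) :
    dO G B x y = dO G B y x := by
  have key : ∀ x y : V, dO G B x y ≤ dO G B y x := by
    intro x y
    obtain ⟨c, hc⟩ := dO_mem (G := G) (B := B) y x
    rw [hc, ← dist_smul' hadj c⁻¹, inv_smul_smul, SimpleGraph.dist_comm]
    exact dO_le _ _ _
  exact le_antisymm (key x y) (key y x)

theorem dO_adj (hconn : G.Connected) (x y z : V) (hadj : ∀ (b : B) x y, G.Adj (b • x) (b • y) ↔ G.Adj x y)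
    (h : G.Adj y z) : dO G B x y ≤ dO G B x z + 1 := by
  obtain ⟨c, hc⟩ := dO_mem (G := G) (B := B) x z
  have h1 := dO_le (G := G) (B := B) x y c
  have h2 : G.dist x (c • y) ≤ G.dist x (c • z) + G.dist (c • z) (c • y) := hconn.dist_triangle
  have h3 : G.dist (c • z) (c • y) = 1 := by
    rw [SimpleGraph.dist_eq_one_iff_adj]
    exact (hadj c z y).2 h.symm
  omega

/-- 3.2, the invariant colouring -/
theorem col_quot (hconn : G.Connected) (hadj : ∀ (b : B) x y, G.Adj (b • x) (b • y) ↔ G.Adj x y)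
    (S : Finset V) (ρ : V → ℕ) (h10 : ∀ x ∈ S, 10 ≤ ρ x)
    (hρ : ∀ x ∈ S, 40 * ((S.filter (fun y => ∃ b : B, G.dist y (b • x) ≤ ρ x)).image
      (fun y => MulAction.orbit B y)).card ≤ ρ x ^ 3) :
    ∃ c : V → ℕ, (∀ x, c x < 3) ∧ (∀ (b : B) x, c (b • x) = c x) ∧
      ∀ x ∈ S, ∃ x₀ ∈ S, ∀ y, Relation.ReflTransGen
        (fun u v => G.Adj u v ∧ u ∈ S ∧ v ∈ S ∧ c u = c v) x y →
          ∃ b : B, G.dist y (b • x₀) ≤ ρ x₀ := by
  -- the set of orbits
  let Q : Type := {o : Set V // o ∈ S.image (fun y => MulAction.orbit B y)}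
  let _ : Fintype Q := inferInstanceAs (Fintype {o : Set V // o ∈ S.image (fun y => MulAction.orbit B y)})
  have hrep : ∀ q : Q, ∃ y ∈ S, MulAction.orbit B y = q.1 := fun q => by
    simpa only [Finset.mem_image] using q.2
  choose rep hrepS hrepO using hrep
  let cl : (y : V) → y ∈ S → Q := fun y hy => ⟨MulAction.orbit B y, Finset.mem_image_of_mem _ hy⟩
  have hrc : ∀ (y : V) (hy : y ∈ S), ∃ b : B, b • y = rep (cl y hy) := by
    intro y hy
    have h1 : rep (cl y hy) ∈ MulAction.orbit B y := by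
      have h2 := hrepO (cl y hy)
      rw [show (cl y hy).1 = MulAction.orbit B y from rfl] at h2
      rw [← h2]
      exact MulAction.mem_orbit_self _
    exact h1
  let adjQ : Q → Q → Prop := fun q q' => ∃ (y z : V) (hy : y ∈ S) (hz : z ∈ S), G.Adj y z ∧
    cl y hy = q ∧ cl z hz = q'
  let DQ : Q → Q → ℕ := fun q q' => dO G B (rep q) (rep q')
  obtain ⟨c, hc⟩ := col (S := Q) adjQ
    (fun q q' ⟨y, z, hy, hz, h1, h2, h3⟩ => ⟨z, y, hz, hy, h1.symm, h3, h2⟩) DQ
    (fun q => dO_self _) (by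
      rintro q q' q'' ⟨y, z, hy, hz, h1, h2, h3⟩
      obtain ⟨b, hb⟩ := hrc y hy
      obtain ⟨b', hb'⟩ := hrc z hz
      rw [h2] at hb
      rw [h3] at hb'
      show dO G B (rep q) (rep q') ≤ dO G B (rep q) (rep q'') + 1
      rw [← hb, ← hb', dO_smul_right, dO_smul_right]
      exact dO_adj hconn _ _ _ hadj h1)
    (fun q => ρ (rep q)) (fun q => h10 _ (hrepS q)) (by
      intro q
      have h1 := hρ (rep q) (hrepS q)
      refine le_trans (Nat.mul_le_mul_left _ ?_) h1
      have h2 : Nat.card {q' : Q // DQ q q' ≤ ρ (rep q)} =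
          ((Finset.univ : Finset Q).filter (fun q' => DQ q q' ≤ ρ (rep q))).card := by
        rw [Nat.card_eq_fintype_card, Fintype.card_subtype]
      rw [h2, ← Finset.card_image_of_injective _ (Subtype.val_injective (p := fun o : Set V =>
        o ∈ S.image (fun y => MulAction.orbit B y)))]
      apply Finset.card_le_card
      intro o ho
      rw [Finset.mem_image] at ho
      obtain ⟨q', hq', rfl⟩ := ho
      rw [Finset.mem_filter] at hq'
      rw [Finset.mem_image]
      refine ⟨rep q', ?_, hrepO q'⟩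
      rw [Finset.mem_filter]
      refine ⟨hrepS q', ?_⟩
      rw [← dO_le_iff, dO_comm hadj]
      exact hq'.2)
  -- colours of orbits meeting `S`
  have hgen : ∃ cV : V → ℕ, (∀ x, cV x < 3) ∧ (∀ (b : B) x, cV (b • x) = cV x) ∧
      ∀ (x : V) (hx : x ∈ S), cV x = (c (cl x hx)).val := by
    refine ⟨fun x => if hx : MulAction.orbit B x ∈ S.image (fun y => MulAction.orbit B y) then
      (c ⟨_, hx⟩).val else 0, ?_, ?_, ?_⟩
    · intro x
      dsimp only
      split_ifs
      · exact (c _).isLt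
      · omega
    · intro b x
      have : MulAction.orbit B (b • x) = MulAction.orbit B x := MulAction.orbit_smul b x
      dsimp only
      simp only [this]
    · intro x hx
      dsimp only
      rw [dif_pos (Finset.mem_image_of_mem _ hx)]
  obtain ⟨cV, hc3, hcinv, hcS⟩ := hgen
  refine ⟨cV, hc3, hcinv, ?_⟩
  intro x hx
  obtain ⟨q₀, hq₀⟩ := hc (cl x hx)
  refine ⟨rep q₀, hrepS q₀, ?_⟩
  intro y hy
  have key : ∃ hyS : y ∈ S, Relation.ReflTransGen (fun q q' => adjQ q q' ∧ c q = c q')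
      (cl x hx) (cl y hyS) := by
    induction hy with
    | refl => exact ⟨hx, Relation.ReflTransGen.refl⟩
    | @tail u v _ hst ih =>
      obtain ⟨hu, ih⟩ := ih
      obtain ⟨h1, h2, h3, h4⟩ := hst
      refine ⟨h3, ih.tail ⟨⟨u, v, hu, h3, h1, rfl, rfl⟩, ?_⟩⟩
      rw [hcS u hu, hcS v h3] at h4
      exact Fin.ext h4
  obtain ⟨hyS, hreach⟩ := key
  have h5 := hq₀ _ hreach
  have h6 : dO G B (rep q₀) (rep (cl y hyS)) ≤ ρ (rep q₀) := h5
  obtain ⟨b, hb⟩ := hrc y hyS
  rw [← hb, dO_smul_right, dO_comm hadj, dO_le_iff] at h6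
  exact h6

end MSG.F.H69
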